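import Pool.Agent.H16.CX.Local
import Pool.Agent.H3.CX.UNI

/-!
# Points with relatively compact local orbits are tame; the dichotomy for tame points
-/

set_option autoImplicit false

open Set Topology Filter MeasureTheory

namespace Pool.Agent.H7.TM

attribute [local instance] Pool.Agent.H71.permTop

open Pool.Agent.H16.CX

/-- points with relatively compact local orbits are tame -/
theorem tame_of_compact (X : Type) [TopologicalSpace X] [TopologicalSpace.MetrizableSpace X]
    [MulAction (Equiv.Perm ℕ) X]
    (hact : Continuous (fun p : Equiv.Perm ℕ × X => p.1 • p.2)) (x : X)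
    (h : ∃ n : ℕ, IsCompact (closure (LO n x))) : Tame x := by
  let d : MetricSpace X := TopologicalSpace.metrizableSpaceMetric X
  obtain ⟨k, hK⟩ := h
  refine ⟨k, inferInstance, rfl, ?_, ?_⟩
  · have : CompactSpace (closure (LO k x)) := isCompact_iff_compactSpace.1 hK
    infer_instance
  · intro e he
    have hF : Continuous fun p : Equiv.Perm ℕ × X => dist (p.1 • p.2) p.2 :=
      hact.dist continuous_snd
    have hO : IsOpen {p : Equiv.Perm ℕ × X | dist (p.1 • p.2) p.2 < e} :=
      isOpen_lt hF continuous_const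
    have hsub : ({(1 : Equiv.Perm ℕ)} : Set (Equiv.Perm ℕ)) ×ˢ (closure (LO k x)) ⊆
        {p : Equiv.Perm ℕ × X | dist (p.1 • p.2) p.2 < e} := by
      rintro ⟨g, y⟩ ⟨hg, -⟩
      have hg' : g = 1 := hg
      subst hg'
      show dist ((1 : Equiv.Perm ℕ) • y) y < e
      rw [one_smul, dist_self]
      exact he
    obtain ⟨U, W, hU, -, hU1, hW, hUW⟩ :=
      generalized_tube_lemma isCompact_singleton hK hO hsub
    obtain ⟨n, hn⟩ := Pool.Agent.H3.CX.exists_VS (hU.mem_nhds (hU1 rfl))
    refine ⟨n, fun g hg y z hz => ?_⟩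
    have h1 : (g, (y : X)) ∈ U ×ˢ W := ⟨hn hg, hW y.2⟩
    have h2 : dist (g • (y : X)) (y : X) < e := hUW h1
    rw [hz] at h2
    exact h2.le

/-- the dichotomy for tame points -/
theorem dichotomy (X : Type) [TopologicalSpace X] [TopologicalSpace.MetrizableSpace X]
    [MeasurableSpace X] [BorelSpace X] [MulAction (Equiv.Perm ℕ) X]
    (hact : Continuous (fun p : Equiv.Perm ℕ × X => p.1 • p.2))
    (h : PolishSpace X ∨ SigmaCompactSpace X) :
    ((∃ f : (ℕ → Bool) → X, Measurable f ∧ ∀ s t, s ≠ t → ∀ g : Equiv.Perm ℕ, g • f s ≠ f t) ∨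
      ∃ D : Set X, D.Countable ∧ ∀ x : X, Tame x → ∃ g : Equiv.Perm ℕ, g • x ∈ D) ∧
    (SigmaCompactSpace X → ∀ x : X, Tame x) := by
  constructor
  · rcases h with h | h
    · exact local_dichotomy X hact
    · have hsc : SecondCountableTopology X := by
        let _ := TopologicalSpace.metrizableSpaceMetric X
        infer_instance
      have := standardBorelSpace_of_sigmaCompact X
      exact local_dichotomy X hact
  · intro h x
    exact tame_of_compact X hact x (bai X hact x)

end Pool.Agent.H7.TM
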